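import Pool.Agent.helper18.KU.Spec

/-!
# ku:CHK - static orders with rational phases
-/

set_option autoImplicit false

namespace Pool.Agent.KU

open Finset

noncomputable section

/-- The floor of `t - r / m`. -/
theorem CHK_floor (m : ℕ) (hm : 0 < m) (t : ℝ) (r : ℕ) :
    ⌊t - (r : ℝ) / m⌋ = (⌊t * m⌋ - (r : ℤ)) / (m : ℤ) := by
  have hmR : (0 : ℝ) < m := by exact_mod_cast hm
  have hmZ : (0 : ℤ) < m := by exact_mod_cast hm
  set N : ℤ := ⌊t * m⌋ with hN
  set q : ℤ := (N - (r : ℤ)) / (m : ℤ) with hq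
  have h1 : q * m ≤ N - r := Int.ediv_mul_le _ hmZ.ne'
  have h2 : N - r < (q + 1) * m := Int.lt_ediv_add_one_mul_self _ hmZ
  have h3 : (N : ℝ) ≤ t * m := Int.floor_le _
  have h4 : t * m < N + 1 := Int.lt_floor_add_one _
  have h1R : (q : ℝ) * m ≤ (N : ℝ) - r := by exact_mod_cast h1
  have h2' : N - r + 1 ≤ (q + 1) * m := h2
  have h2R : (N : ℝ) - r + 1 ≤ ((q : ℝ) + 1) * m := by exact_mod_cast h2'
  rw [Int.floor_eq_iff]
  constructor
  · have : t - (r : ℝ) / m = (t * m - r) / m := by field_simp
    rw [this, le_div_iff₀ hmR]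
    linarith
  · have : t - (r : ℝ) / m = (t * m - r) / m := by field_simp
    rw [this, div_lt_iff₀ hmR]
    linarith

/-- Acyclicity from the iterates. -/
theorem CHK_ac {m : ℕ} (P : Fin m → Option (Fin m)) (h : ∀ i, it P m (some i) = none) : Ac univ P := by
  classical
  have hex : ∀ i, ∃ n, it P n (some i) = none := fun i => ⟨m, h i⟩
  refine ⟨fun i => Nat.find (hex i), fun v _ u hu => ?_⟩
  have h1 : it P (Nat.find (hex v)) (some v) = none := Nat.find_spec (hex v)
  rcases hn : Nat.find (hex v) with _ | n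
  · rw [hn] at h1
    simp [it] at h1
  · rw [hn] at h1
    have h2 : it P n (some u) = none := by
      have : it P (n + 1) (some v) = it P n (P v) := by simp [it]
      rw [this, hu] at h1
      exact h1
    have h3 : Nat.find (hex u) ≤ n := Nat.find_min' (hex u) h2
    show Nat.find (hex u) < Nat.find (hex v)
    rw [hn]
    omega

theorem CHK : CHK_stmt := by
  intro m hm hh r hr hinj hne hit
  have hmR : (0 : ℝ) < m := by exact_mod_cast hm
  refine ⟨hh, fun i => (r i : ℝ) / m, ?_, ?_, ?_, ?_, ?_⟩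
  · intro v _ k u hu
    refine ⟨mem_univ _, ?_⟩
    rintro rfl
    exact hne _ _ hu
  · intro v _
    rfl
  · intro u _ v _ _
    rfl
  · intro u _ v _ huv n hn
    have h1 : (r u : ℝ) - r v = n * m := by
      have h2 : (r u : ℝ) / m - (r v : ℝ) / m = ((r u : ℝ) - r v) / m := by ring
      rw [h2, div_eq_iff hmR.ne'] at hn
      exact hn
    have h3 : (r u : ℤ) - r v = n * m := by exact_mod_cast h1
    have h4 := hr u
    have h5 := hr v
    have h6 : n = 0 := by
      by_contra h0
      rcases lt_or_gt_of_ne h0 with h7 | h7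
      · have : n * (m : ℤ) ≤ -1 * m := by
          apply mul_le_mul_of_nonneg_right _ (by positivity)
          omega
        omega
      · have : 1 * (m : ℤ) ≤ n * m := by
          apply mul_le_mul_of_nonneg_right _ (by positivity)
          omega
        omega
    rw [h6] at h3
    apply huv
    apply hinj
    omega
  · intro t
    set N : ℤ := ⌊t * m⌋ with hN
    have hM : (0 : ℤ) < 3 * m := by positivity
    have h0 : 0 ≤ N % (3 * m : ℤ) := Int.emod_nonneg _ hM.ne'
    have h1 : N % (3 * m : ℤ) < 3 * m := Int.emod_lt_of_pos _ hM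
    obtain ⟨j, hj⟩ := Int.eq_ofNat_of_zero_le h0
    have hj1 : j < 3 * m := by
      have : (j : ℤ) < 3 * m := by rw [← hj]; exact h1
      exact_mod_cast this
    have hP : ptr hh (fun i => (r i : ℝ) / m) t =
        fun i => hh i ((((((⟨j, hj1⟩ : Fin (3 * m)) : ℕ) : ℤ) - r i) / m : ℤ)) := by
      funext i
      unfold ptr
      congr 1
      rw [CHK_floor m hm t (r i), ← hN]
      have h2 : N = (j : ℤ) + 3 * m * (N / (3 * m)) := by
        have := Int.emod_add_mul_ediv N (3 * m)
        rw [hj] at this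
        exact this.symm
      have h3 : (N - (r i : ℤ)) / (m : ℤ) = ((j : ℤ) - r i) / m + 3 * (N / (3 * m)) := by
        conv_lhs => rw [h2]
        have h4 : (j : ℤ) + 3 * m * (N / (3 * m)) - (r i : ℤ) =
            ((j : ℤ) - r i) + (3 * (N / (3 * m))) * m := by ring
        rw [h4, Int.add_mul_ediv_right _ _ (by exact_mod_cast hm.ne')]
      rw [h3]
      push_cast
      have h5 : (3 : ZMod 3) = 0 := by decide
      rw [h5, zero_mul, add_zero]
    rw [hP]
    exact CHK_ac _ (hit ⟨j, hj1⟩)

end

end Pool.Agent.KU
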